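import Pool.Agent.Helper240.NevMain

/-!
Logarithmic growth of the Nevanlinna characteristic on every hyperbolic leaf of a holomorphic
foliation with linearizable singularities.

Idea of the proof. Near a singular point where the foliation is generated by `z ↦ A z`, put
`L = - log |A z|²` (suitably normalised) and `W = log (1 + L₊³)` (times a cut-off constant along
the leaves). Along the leaves the Laplacian of `W` is at most `- c |dt|² / L²` near the singular
set, `t` being the complex time, and at most `C ω` elsewhere. The Schwarz lemma, applied to the
discs `t ↦ exp (t A) z`, `|t| < c L`, shows that the Poincare metric of the leaf is at most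
`C |dt|² / L²`. Hence, along a universal covering, the Laplacian of `W ∘ φ` is at most
`C φ^* ω - c (Poincare metric)`, and the Jensen formula gives the result since `W ≥ 0`.
-/

set_option autoImplicit false

open scoped Manifold
open Pool.Agent.Helper240.Nev

namespace Pool.Agent.Results.MP_39ecfc_an.LogGrowth

/-- Let `M` be a compact complex manifold with a continuous positive `(1,1)`-form `ω` and let `F`
be a holomorphic foliation by curves of `M` all of whose singularities are linearizable. For every
universal covering `φ` of a leaf by the unit disc, the Nevanlinna characteristic satisfies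
`T(r) ≥ c log (1 / (1 - r))` for `r` close to `1`, with some `c > 0`. -/
theorem result {E M : Type*} [NormedAddCommGroup E] [NormedSpace ℂ E] [FiniteDimensional ℂ E]
    [TopologicalSpace M] [T2Space M] [CompactSpace M] [ChartedSpace E M]
    [IsManifold 𝓘(ℂ, E) 1 M] (ω : PosForm E M) (F : Foliation E M)
    (hF : ∀ p ∈ F.sing, F.LinearizableAt p) (φ : ℂ → M) (hφ : F.IsUniversalCovering φ) :
    ∃ c > 0, ∃ r₀ < 1, ∀ r, r₀ < r → r < 1 → c * Real.log (1 / (1 - r)) ≤ charT ω φ r :=
  main_growth ω F hF φ hφ

end Pool.Agent.Results.MP_39ecfc_an.LogGrowth
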